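import Pool.Agent.H37.CNK.Stmts

/-!
# Board cnk (MP_b57703), row BAS

Basic facts on the totally ramified place of a cover of a `p`-group.
-/

set_option autoImplicit false

namespace Pool.CND

theorem bas_thm (h1 : S_PTR) (h2 : S_INF) (h3 : S_UMW) (h4 : S_SUB) : S_BAS := by
  intro p k L G _ _ _ _ _ _ ρ t P hP
  have hr : ram P ρ 1 = Set.univ := h1 p k L G ρ t P hP.pr hP.ch hP.cd hP.cov hP.inf
  have hF : ∀ g : G, Fixes P (ρ g) := by
    intro g
    have hg : g ∈ ram P ρ 1 := by rw [hr]; exact Set.mem_univ g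
    exact hg.1
  refine ⟨hr, hF, ?_, ?_, hP.cov.inj⟩
  · obtain ⟨W, I, hW, hI, hWI, -⟩ := h4 k L G P ρ
    have hIt : I = ⊤ := by
      rw [Subgroup.eq_top_iff']
      intro g
      refine hWI ?_
      have hg : g ∈ (W : Set G) := by rw [hW, hr]; exact Set.mem_univ g
      exact hg
    have h5 := h2 k L G ρ t P I hP.cov hP.inf hI
    rw [h5, hIt, Subgroup.card_top]
  · exact h3 k L G P ρ ⊤ hP.cov.inj (by rw [hr]; exact Subgroup.coe_top)

end Pool.CND
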